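import Pool.Agent.H94.DG.H5.DG.CovAlg
import Pool.Agent.H94.DG.H5.DG.Lang
import Pool.Agent.H94.DG.M09
import Pool.Agent.H94.DG.M17
import Pool.Agent.H94.DG.M24

/-!
# Project DG3, module FibAlg: finite fibres give an algebraic extension

`A a` forms of the same degree, `A a₀ ∉ Q`; on the part of `variety Q` where the forms `T` and `A a₀`
do not vanish the map `coverMap A` has finite fibres.  Then the function field of `variety Q` is
algebraic over the field generated by the quotients `u a = A a / A a₀`.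

Proof.  `ξ i = ratio Q i j₀` generate `FunField Q` (`adjoin_ratio'` in CovAlg is private, copy it).
Suppose that some `ξ i₁` is not algebraic over `k₀ = ℂ(u)`.  There is `J` such that the `u a`, `a ∈ J`
(a subset of `Fin (M + 1)`) are independent and all `u a` are algebraic over `ℂ(u_J)`
(`exists_isTranscendenceBasis_subset`); then `u_J` and `ξ i₁` are independent
(`AlgebraicIndependent.option_iff` or `insert`), and they are contained in a transcendence basis
`z : ι → FunField Q` which consists of them and of other `ξ i` (`exists_isTranscendenceBasis_between`),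
`ι` finite.  Apply `exists_spec` to `z` and to the family `x` which consists of all `ξ i`, all `u a`,
`(T (ξ) * A a₀ (ξ))⁻¹` and `(λ a (u_J))⁻¹`, where `∑ j, r a j (u_J) * (u a) ^ j = 0` is an algebraic
equation with leading coefficient `λ a (u_J) ≠ 0`.  Choose `c⁰` with `f (c⁰) ≠ 0`; for all but
finitely many `t` the point `c` which is `c⁰` except for the coordinate of `ξ i₁`, which is `t`, has
`f (c) ≠ 0`.  The points `p_t = (y (ξ i))_i` have `p_t j₀ = 1`, `p_t i₁ = t`, lie on the cone of
`variety Q` (homogeneous elements of `Q` vanish at `ξ`), `T (p_t) ≠ 0`, `A a₀ (p_t) ≠ 0` and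
`A a (p_t) = y (u a) * A a₀ (p_t)`, and `y (u a)` is a root of the polynomial `∑ j, r a j (c⁰_J) V ^ j`,
which is not zero and does not depend on `t`.  So the points `coverMap A [p_t] = [y (u a)]_a`
(`coverMap_mk`, module CovMap) lie in a finite set, and one of them is the image of infinitely many
different points `[p_t]`.
-/

open MvPolynomial
open Pool.Agent.H17 (PN VanishesAt)
open Pool.Agent.H17GT (coordFun)
open Pool.Agent.H17LG.Variety (FunField ratio)
open Pool.Agent.H5.DG (Homog variety coverMap valAt)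

noncomputable section

namespace Pool.Agent.H5.DG3

/-- An algebraic equation over the polynomials in a transcendence basis. -/
private theorem FibAlg_rel {K₀ : Type} [Field K₀] [Algebra ℂ K₀] {J : Type} {x : J → K₀}
    (hx : IsTranscendenceBasis ℂ x) (u : K₀) :
    ∃ Φ : Polynomial (MvPolynomial J ℂ), Φ ≠ 0 ∧
      Φ.eval₂ (aeval x : MvPolynomial J ℂ →ₐ[ℂ] K₀).toRingHom u = 0 := by
  obtain ⟨p, hp0, hp⟩ := hx.isAlgebraic.isAlgebraic u
  refine ⟨p.map (hx.1.aevalEquiv.symm : _ →+* MvPolynomial J ℂ), ?_, ?_⟩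
  · rw [Ne, Polynomial.map_eq_zero_iff]
    · exact hp0
    · exact hx.1.aevalEquiv.symm.injective
  · rw [Polynomial.eval₂_map]
    rw [Polynomial.aeval_def] at hp
    refine Eq.trans ?_ hp
    congr 1
    ext a
    have h1 := hx.1.algebraMap_aevalEquiv (hx.1.aevalEquiv.symm a)
    rw [AlgEquiv.apply_symm_apply] at h1
    exact h1.symm

/-- Infinitely many specialisations, for which the elements of `K₀` have only finitely many
values. -/
private theorem FibAlg_family {K : Type} [Field K] [Algebra ℂ K] {w : ℕ}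
    (hz : ∃ z : Fin w → K, IsTranscendenceBasis ℂ z) (K₀ : IntermediateField ℂ K) {κ α : Type}
    [Finite κ] [Finite α] (x : κ → K) {τ : K} (hτ : ¬ IsAlgebraic K₀ τ) (u : α → K)
    (hu : ∀ a, u a ∈ K₀) :
    ∃ (G : Set ℂ) (S : α → Finset ℂ), G.Infinite ∧ ∀ t ∈ G, ∃ (y : κ → ℂ) (v : α → ℂ),
      (∀ a, v a ∈ S a) ∧ ∀ R : MvPolynomial (Option (κ ⊕ α)) ℂ,
        aeval (fun o => Option.elim o τ (Sum.elim x u)) R = 0 →
        eval (fun o => Option.elim o t (Sum.elim y v)) R = 0 := by
  classical
  have := Fintype.ofFinite α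
  obtain ⟨z₁, hz₁⟩ := hz
  obtain ⟨J, x₀, hx₀⟩ := exists_isTranscendenceBasis' ℂ K₀
  have hind : AlgebraicIndepOn K₀ id ({τ} : Set K) :=
    algebraicIndependent_unique_type_iff.2 hτ
  obtain ⟨s, hs, hsb⟩ := exists_isTranscendenceBasis_superset hind
  have hzb : IsTranscendenceBasis ℂ (Sum.elim ((↑) : s → K) (algebraMap K₀ K ∘ x₀)) :=
    hx₀.sumElim_comp hsb
  obtain ⟨z, hzdef⟩ : ∃ z : s ⊕ J → K, z = Sum.elim ((↑) : s → K) (algebraMap K₀ K ∘ x₀) := ⟨_, rfl⟩
  rw [← hzdef] at hzb
  have hfin : Finite (s ⊕ J) := by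
    have h1 := hz₁.cardinalMk_eq hzb
    rw [← Cardinal.lt_aleph0_iff_finite, ← h1]
    exact Cardinal.lt_aleph0_of_finite _
  have hJfin : Finite J := Finite.of_injective (Sum.inr : J → s ⊕ J) Sum.inr_injective
  have halg := hzb.isAlgebraic_field
  obtain ⟨f, hf0, hf⟩ := exists_spec hzb.1 (Sum.elim x u) fun i => halg.isAlgebraic _
  choose Φ hΦ0 hΦ using fun a => FibAlg_rel hx₀ (⟨u a, hu a⟩ : K₀)
  obtain ⟨g, hg⟩ : ∃ g : MvPolynomial (s ⊕ J) ℂ,
    g = f * ∏ a, rename Sum.inr (Φ a).leadingCoeff := ⟨_, rfl⟩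
  have hg0 : g ≠ 0 := by
    rw [hg]
    refine mul_ne_zero hf0 (Finset.prod_ne_zero_iff.2 fun a _ => ?_)
    rw [Ne, map_eq_zero_iff _ (rename_injective _ Sum.inr_injective)]
    exact Polynomial.leadingCoeff_ne_zero.2 (hΦ0 a)
  obtain ⟨c₀, hc₀⟩ : ∃ c₀ : s ⊕ J → ℂ, eval c₀ g ≠ 0 := by
    by_contra hcon
    push Not at hcon
    exact hg0 (MvPolynomial.funext fun c => by rw [hcon c, map_zero])
  obtain ⟨i₀, hi₀⟩ : ∃ i₀ : s ⊕ J, i₀ = Sum.inl ⟨τ, hs rfl⟩ := ⟨_, rfl⟩
  have hzi : z i₀ = τ := by
    rw [hzdef, hi₀]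
    rfl
  obtain ⟨P, hP⟩ : ∃ P : Polynomial ℂ, P = aeval (fun i => if i = i₀ then Polynomial.X else
    Polynomial.C (c₀ i)) g := ⟨_, rfl⟩
  have hPe : ∀ t, P.eval t = eval (Function.update c₀ i₀ t) g := by
    intro t
    rw [hP]
    have h1 : ∀ q : MvPolynomial (s ⊕ J) ℂ, Polynomial.eval t (aeval (fun i => if i = i₀ then
        Polynomial.X else Polynomial.C (c₀ i)) q) = eval (Function.update c₀ i₀ t) q := by
      intro q
      induction q using MvPolynomial.induction_on with
      | C a => simp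
      | add p q hp hq => rw [map_add, Polynomial.eval_add, hp, hq, map_add]
      | mul_X p i hp =>
        rw [map_mul, Polynomial.eval_mul, hp, map_mul, aeval_X, eval_X]
        congr 1
        by_cases h : i = i₀
        · rw [if_pos h, Polynomial.eval_X, h, Function.update_self]
        · rw [if_neg h, Polynomial.eval_C, Function.update_of_ne h]
    exact h1 g
  have hP0 : P ≠ 0 := by
    intro h
    apply hc₀
    rw [← Function.update_eq_self i₀ c₀, ← hPe, h, Polynomial.eval_zero]
  refine ⟨{t | P.eval t ≠ 0}, fun a => ((Φ a).map (eval fun j => c₀ (Sum.inr j))).roots.toFinset,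
    ?_, ?_⟩
  · have h1 : {t | P.eval t ≠ 0} = {t | P.IsRoot t}ᶜ := rfl
    rw [h1]
    exact (Polynomial.finite_setOfPred_isRoot hP0).infinite_compl
  · intro t ht
    rw [Set.mem_ofPred_eq, hPe, hg, map_mul, map_prod] at ht
    have ht1 := left_ne_zero_of_mul ht
    have ht2 := Finset.prod_ne_zero_iff.1 (right_ne_zero_of_mul ht)
    obtain ⟨y, hy⟩ := hf _ ht1
    have hupd : (fun j => Function.update c₀ i₀ t (Sum.inr j)) = fun j => c₀ (Sum.inr j) := by
      funext j
      rw [Function.update_of_ne]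
      rw [hi₀]
      exact Sum.inr_ne_inl
    refine ⟨fun i => y (Sum.inl i), fun a => y (Sum.inr a), ?_, ?_⟩
    · intro a
      rw [Multiset.mem_toFinset, Polynomial.mem_roots']
      constructor
      · intro h
        have h1 := congrArg (fun q => Polynomial.coeff q (Φ a).natDegree) h
        simp only [Polynomial.coeff_map, Polynomial.coeff_zero] at h1
        apply ht2 a (Finset.mem_univ a)
        rw [eval_rename]
        have h2 : (Function.update c₀ i₀ t ∘ Sum.inr : J → ℂ) = fun j => c₀ (Sum.inr j) := hupd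
        rw [h2]
        exact h1
      · have h1 := hy ((Φ a).eval₂ (rename (Sum.inl ∘ Sum.inr) :
          MvPolynomial J ℂ →ₐ[ℂ] MvPolynomial ((s ⊕ J) ⊕ (κ ⊕ α)) ℂ).toRingHom
          (X (Sum.inr (Sum.inr a)))) (by
            rw [← AlgHom.coe_toRingHom, Polynomial.hom_eval₂]
            rw [AlgHom.coe_toRingHom, aeval_X, Sum.elim_inr, Sum.elim_inr]
            have h2 := congrArg (algebraMap K₀ K) (hΦ a)
            rw [Polynomial.hom_eval₂, map_zero] at h2
            refine Eq.trans ?_ h2
            congr 1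
            refine MvPolynomial.ringHom_ext (fun r => ?_) fun j => ?_
            · simp only [RingHom.comp_apply, AlgHom.toRingHom_eq_coe, RingHom.coe_coe, algHom_C]
              rw [AlgHom.commutes]
              rfl
            · simp only [RingHom.comp_apply, AlgHom.toRingHom_eq_coe, RingHom.coe_coe, rename_X,
                aeval_X, Function.comp_apply, Sum.elim_inl, hzdef, Sum.elim_inr])
        rw [Polynomial.hom_eval₂, eval_X, Sum.elim_inr] at h1
        rw [Polynomial.IsRoot, Polynomial.eval_map]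
        refine Eq.trans ?_ h1
        congr 1
        refine MvPolynomial.ringHom_ext (fun r => ?_) fun j => ?_
        · simp only [RingHom.comp_apply, AlgHom.toRingHom_eq_coe, RingHom.coe_coe, rename_C, eval_C]
        · simp only [RingHom.comp_apply, AlgHom.toRingHom_eq_coe, RingHom.coe_coe, rename_X,
            eval_X, Function.comp_apply, Sum.elim_inl]
          exact (congrFun hupd j).symm
    · intro R hR
      have h1 := hy (rename (fun o => Option.elim o (Sum.inl i₀) Sum.inr) R) (by
        rw [aeval_rename]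
        refine Eq.trans ?_ hR
        congr 2
        funext o
        cases o with
        | none => exact hzi
        | some o => cases o <;> rfl)
      rw [eval_rename] at h1
      refine Eq.trans ?_ h1
      congr 2
      funext o
      cases o with
      | none => exact (Function.update_self i₀ t c₀).symm
      | some o => cases o <;> rfl

theorem algebraic_of_finite {N M e d w : ℕ} (Q : Ideal (MvPolynomial (Fin (N + 1)) ℂ)) [Q.IsPrime]
    (hQ : Homog Q) (hz : ∃ z : Fin w → FunField Q, IsTranscendenceBasis ℂ z)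
    {j₀ : Fin (N + 1)} (hj₀ : coordFun Q j₀ ≠ 0)
    {A : Fin (M + 1) → MvPolynomial (Fin (N + 1)) ℂ} (hA : ∀ a, (A a).IsHomogeneous e)
    {a₀ : Fin (M + 1)} (ha₀ : A a₀ ∉ Q) {T : MvPolynomial (Fin (N + 1)) ℂ}
    (hT : T.IsHomogeneous d) (hTQ : T ∉ Q)
    (hfin : ∀ y : PN M, {x | x ∈ variety Q ∧ ¬ VanishesAt T x ∧ ¬ VanishesAt (A a₀) x ∧
      coverMap A x = y}.Finite) :
    Algebra.IsAlgebraic (IntermediateField.adjoin ℂ (Set.range fun a =>
      valAt Q j₀ A a / valAt Q j₀ A a₀)) (FunField Q) := by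
  classical
  have hξ1 : ratio Q j₀ j₀ = 1 := Pool.Agent.H17R.ratio_self hj₀
  have hv0 : valAt Q j₀ A a₀ ≠ 0 := fun h =>
    ha₀ ((Pool.Agent.H5.DG.eval_ratio_zero_iff Q hj₀ (hA a₀)).1 h)
  have hT0 : aeval (fun i => ratio Q i j₀) T ≠ 0 := fun h =>
    hTQ ((Pool.Agent.H5.DG.eval_ratio_zero_iff Q hj₀ hT).1 h)
  obtain ⟨K₀, hK₀⟩ : ∃ K₀ : IntermediateField ℂ (FunField Q), K₀ = IntermediateField.adjoin ℂ
    (Set.range fun a => valAt Q j₀ A a / valAt Q j₀ A a₀) := ⟨_, rfl⟩
  rw [← hK₀]
  have hmem : ∀ a, valAt Q j₀ A a / valAt Q j₀ A a₀ ∈ K₀ := by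
    intro a
    rw [hK₀]
    exact IntermediateField.subset_adjoin _ _ ⟨a, rfl⟩
  have key : ∀ i, IsAlgebraic K₀ (ratio Q i j₀) := by
    intro i₁
    by_contra hcon
    obtain ⟨G, S, hG, hS⟩ := FibAlg_family hz K₀ (κ := Fin (N + 1) ⊕ Unit)
      (Sum.elim (fun i => ratio Q i j₀) fun _ =>
        (aeval (fun i => ratio Q i j₀) T * valAt Q j₀ A a₀)⁻¹) hcon
      (fun a => valAt Q j₀ A a / valAt Q j₀ A a₀) hmem
    -- the points
    have hpt : ∀ t ∈ G, ∃ (p : Fin (N + 1) → ℂ) (v : Fin (M + 1) → ℂ), (∀ a, v a ∈ S a) ∧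
        p j₀ = 1 ∧ p i₁ = t ∧ (∀ q ∈ Q, eval p q = 0) ∧ eval p T ≠ 0 ∧ eval p (A a₀) ≠ 0 ∧
        ∀ a, eval p (A a) = v a * eval p (A a₀) := by
      intro t ht
      obtain ⟨y, v, hv, hR⟩ := hS t ht
      obtain ⟨z, hz'⟩ : ∃ z : Option ((Fin (N + 1) ⊕ Unit) ⊕ Fin (M + 1)) → FunField Q,
        z = fun o => Option.elim o (ratio Q i₁ j₀) (Sum.elim (Sum.elim (fun i => ratio Q i j₀)
          fun _ => (aeval (fun i => ratio Q i j₀) T * valAt Q j₀ A a₀)⁻¹)
          fun a => valAt Q j₀ A a / valAt Q j₀ A a₀) := ⟨_, rfl⟩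
      obtain ⟨c, hc⟩ : ∃ c : Option ((Fin (N + 1) ⊕ Unit) ⊕ Fin (M + 1)) → ℂ,
        c = fun o => Option.elim o t (Sum.elim y v) := ⟨_, rfl⟩
      rw [← hz', ← hc] at hR
      have hren : ∀ q : MvPolynomial (Fin (N + 1)) ℂ,
          aeval z (rename (fun i => some (Sum.inl (Sum.inl i))) q) =
            aeval (fun i => ratio Q i j₀) q := by
        intro q
        rw [aeval_rename, hz']
        rfl
      have hren' : ∀ q : MvPolynomial (Fin (N + 1)) ℂ,
          eval c (rename (fun i => some (Sum.inl (Sum.inl i))) q) =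
            eval (fun i => y (Sum.inl i)) q := by
        intro q
        rw [eval_rename, hc]
        rfl
      have h1 := hR (X (some (Sum.inl (Sum.inl j₀))) - 1) (by
        rw [map_sub, aeval_X, map_one, hz']
        exact sub_eq_zero.2 hξ1)
      have h2 := hR (X (some (Sum.inl (Sum.inl i₁))) - X none) (by
        rw [map_sub, aeval_X, aeval_X, hz']
        exact sub_self _)
      have h3 := hR (rename (fun i => some (Sum.inl (Sum.inl i))) T *
        rename (fun i => some (Sum.inl (Sum.inl i))) (A a₀) * X (some (Sum.inl (Sum.inr ()))) - 1)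
        (by
          rw [map_sub, map_mul, map_mul, hren, hren, aeval_X, map_one, hz']
          exact sub_eq_zero.2 (mul_inv_cancel₀ (mul_ne_zero hT0 hv0)))
      have h4 : ∀ a, eval c (rename (fun i => some (Sum.inl (Sum.inl i))) (A a) -
          X (some (Sum.inr a)) * rename (fun i => some (Sum.inl (Sum.inl i))) (A a₀)) = 0 := by
        intro a
        apply hR
        rw [map_sub, map_mul, hren, hren, aeval_X, hz']
        exact sub_eq_zero.2 (div_mul_cancel₀ _ hv0).symm
      rw [map_sub, map_one, eval_X, hc] at h1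
      rw [map_sub, eval_X, eval_X, hc] at h2
      rw [map_sub, map_mul, map_mul, hren', hren', map_one] at h3
      refine ⟨fun i => y (Sum.inl i), v, hv, sub_eq_zero.1 h1, sub_eq_zero.1 h2, ?_, ?_, ?_, ?_⟩
      · intro q hq
        rw [← hren']
        apply hR
        rw [hren]
        exact Pool.Agent.H5.DG.eval_ratio_mem Q hQ hj₀ hq
      · intro h5
        rw [h5, zero_mul, zero_mul, zero_sub, neg_eq_zero] at h3
        exact one_ne_zero h3
      · intro h5
        rw [h5, mul_zero, zero_mul, zero_sub, neg_eq_zero] at h3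
        exact one_ne_zero h3
      · intro a
        have h5 := h4 a
        rw [map_sub, map_mul, hren', hren', eval_X, hc] at h5
        exact sub_eq_zero.1 h5
    choose! p v hv hp1 hpt hpQ hpT hpA hpv using hpt
    -- the finite set
    obtain ⟨F, hF⟩ : ∃ F : (Fin (M + 1) → ℂ) → PN M, F = fun s =>
      if h : s ≠ 0 then Projectivization.mk ℂ s h
      else Projectivization.mk ℂ (fun _ => 1) fun h => one_ne_zero (congrFun h 0) := ⟨_, rfl⟩
    have hUfin : (⋃ s ∈ (Fintype.piFinset S : Finset (Fin (M + 1) → ℂ)), {x | x ∈ variety Q ∧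
        ¬ VanishesAt T x ∧ ¬ VanishesAt (A a₀) x ∧ coverMap A x = F s}).Finite :=
      Set.Finite.biUnion (Finset.finite_toSet _) fun s _ => hfin _
    have hne : ∀ t ∈ G, p t ≠ 0 := by
      intro t ht h
      have h1 := hp1 t ht
      rw [h, Pi.zero_apply] at h1
      exact zero_ne_one h1
    obtain ⟨P, hP⟩ : ∃ P : ℂ → PN N, P = fun t =>
      if h : p t ≠ 0 then Projectivization.mk ℂ (p t) h
      else Projectivization.mk ℂ (fun _ => 1) fun h => one_ne_zero (congrFun h 0) := ⟨_, rfl⟩
    have hPe : ∀ t (h : p t ≠ 0), P t = Projectivization.mk ℂ (p t) h := by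
      intro t h
      rw [hP]
      exact dif_pos h
    apply hG
    refine Set.Finite.of_injOn (f := P) ?_ ?_ hUfin
    · intro t ht
      have h0 := hne t ht
      have hv1 : v t ≠ 0 := by
        intro h
        have h1 := hpv t ht a₀
        rw [h, Pi.zero_apply, zero_mul] at h1
        exact hpA t ht h1
      refine Set.mem_biUnion (x := v t) (Fintype.mem_piFinset.2 (hv t ht)) ⟨?_, ?_, ?_, ?_⟩
      · intro q hq k hk
        rw [hPe t h0, Pool.Agent.H17.vanishesAt_mk_iff hk]
        exact hpQ t ht q hq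
      · rw [hPe t h0, Pool.Agent.H17.vanishesAt_mk_iff hT]
        exact hpT t ht
      · rw [hPe t h0, Pool.Agent.H17.vanishesAt_mk_iff (hA a₀)]
        exact hpA t ht
      · have h2 : (fun a => eval (p t) (A a)) ≠ 0 := fun h => hpA t ht (congrFun h a₀)
        have h3 : F (v t) = Projectivization.mk ℂ (v t) hv1 := by
          rw [hF]
          exact dif_pos hv1
        rw [hPe t h0, Pool.Agent.H5.DG.coverMap_mk hA h0 h2, h3, Projectivization.mk_eq_mk_iff']
        refine ⟨eval (p t) (A a₀), ?_⟩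
        funext a
        rw [Pi.smul_apply, smul_eq_mul, hpv t ht a, mul_comm]
    · intro t ht t' ht' h
      rw [hPe t (hne t ht), hPe t' (hne t' ht'), Projectivization.mk_eq_mk_iff'] at h
      obtain ⟨a, ha⟩ := h
      have h1 := congrFun ha j₀
      rw [Pi.smul_apply, smul_eq_mul, hp1 t' ht', hp1 t ht, mul_one] at h1
      have h2 := congrFun ha i₁
      rw [Pi.smul_apply, smul_eq_mul, hpt t' ht', hpt t ht, h1, one_mul] at h2
      exact h2.symm
  refine ⟨fun z => ?_⟩
  have hz' : z ∈ IntermediateField.adjoin ℂ (Set.range fun i => ratio Q i j₀) := by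
    rw [Pool.Agent.H17R.adjoin_ratio hj₀]
    trivial
  induction hz' using IntermediateField.adjoin_induction with
  | mem y hy =>
    obtain ⟨i, rfl⟩ := hy
    exact key i
  | algebraMap c =>
    have h1 : algebraMap ℂ (FunField Q) c = algebraMap K₀ (FunField Q) (algebraMap ℂ K₀ c) := rfl
    rw [h1]
    exact isAlgebraic_algebraMap _
  | add y y' _ _ h1 h2 => exact h1.add h2
  | inv y _ h1 => exact h1.inv
  | mul y y' _ _ h1 h2 => exact h1.mul h2

end Pool.Agent.H5.DG3
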